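import Mathlib
import Pool.Agent.H.MP_ef395a_gt.A

set_option autoImplicit false

namespace Pool.Agent.H.MP_293d80_gt

open Set Filter Topology Cardinal PiNat Pool.Agent.H.MP_9c4169_gt Pool.Agent.H.MP_55e6a3_gt
  Pool.Agent.H.MP_ef395a_gt

abbrev C : Type := ℕ → Bool

def Lg (W : Set (List Bool)) (A : C) (s : List Bool) : Prop :=
  ∃ t ∈ W, Ext (fun s b => b = true → A s.length = true) s t

def co (A : C) : C := fun n => !A n

theorem coco (A : C) : co (co A) = A := funext fun n => Bool.not_not _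

theorem Lg.mono {W W' : Set (List Bool)} {A : C} {s : List Bool} (h : Lg W A s) (h' : W ⊆ W') :
    Lg W' A s := h.imp fun _ h => ⟨h' h.1, h.2⟩

theorem Lg.open (W : Set (List Bool)) (s : List Bool) : IsOpen {A | Lg W A s} := by
  refine isOpen_iff_forall_mem_open.2 fun A ⟨t, t1, t2⟩ => ⟨cylinder A t.length, fun B hB =>
    ⟨t, t1, ?_⟩, isOpen_cylinder _ _ _, self_mem_cylinder _ _⟩
  obtain ⟨x, hx⟩ := ex1 t
  obtain ⟨h1, h2⟩ := (ex2 t2).2 x hx
  have := ex3 (ρ := fun s b => b = true → B s.length = true) (ex2 t2).1 fun n a b c => by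
    simpa [hB n b] using h2 n a b c
  rwa [h1, hx] at this

def Inv (𝒲 : Set (Bool × Set (List Bool))) : Prop :=
  ∀ p ∈ 𝒲, ∀ q ∈ 𝒲, p.1 ≠ q.1 → ∀ s s' A, Lg p.2 A s ∨ Lg q.2 (co A) s'

theorem pt {𝒲 : Set (Bool × Set (List Bool))} (hW : 𝒲.Countable) (i : Bool) (A : C)
    (h : ∀ p ∈ 𝒲, p.1 = i → ∀ s, Lg p.2 A s) (s : List Bool) :
    ∃ x, res x s.length = s ∧ (∀ n, s.length ≤ n → x n = true → A n = true) ∧
      ∀ p ∈ 𝒲, p.1 = i → Mt x p.2 := by
  obtain ⟨x, x1, x2, x3⟩ := gen (ρ := fun s b => b = true → A s.length = true)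
    (fun _ => ⟨false, by simp⟩) ((hW.mono (sep_subset 𝒲 fun p => p.1 = i)).image Prod.snd)
    (by rintro _ ⟨p, hp, rfl⟩; exact h p hp.1 hp.2) s
  exact ⟨x, x1, fun n hn => by simpa using x2 n hn, fun p a b => x3 _ ⟨p, ⟨a, b⟩, rfl⟩⟩

theorem stage {P : Set (Bool × C)} (hP : P.Countable) {𝒲 : Set (Bool × Set (List Bool))}
    (hW : 𝒲.Countable) (i : Bool) (U : ℕ → Set C) (hU : ∀ j, IsOpen (U j)) (A : C) :
    ∃ d : (Bool × C) × Set ℕ × {𝒱 : Set (Bool × Set (List Bool)) // 𝒱.Countable}, Inv 𝒲 →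
      Inv (𝒲 ∪ d.2.2.1) ∧ (∀ p ∈ 𝒲, p.1 = d.1.1 → Mt d.1.2 p.2) ∧
      ((d.1.1 = i ∧ {j | d.1.2 ∈ U j}.Finite) ∨
        ((∀ n, d.1.2 n = true → A n = d.1.1) ∧ ∀ z, ((i, z) ∈ insert d.1 P ∨
          ∀ p ∈ d.2.2.1, p.1 = i → Mt z p.2) → {j | z ∈ U j}.Infinite →
            Sp d.2.1 {j | z ∈ U j})) := by
  by_cases hI : Inv 𝒲
  swap
  · exact ⟨((i, A), ∅, ⟨∅, countable_empty⟩), fun h => (hI h).elim⟩
  by_cases h : ∀ k s, ∀ q ∈ 𝒲, q.1 ≠ i → ∀ s' A, Lg (Wd U Set.univ k) A s ∨ Lg q.2 (co A) s'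
  · obtain ⟨x, x1, x2⟩ : ∃ x : Bool × C, (∀ p ∈ 𝒲, p.1 = x.1 → Mt x.2 p.2) ∧
        ∀ n, x.2 n = true → A n = x.1 := by
      by_cases h1 : ∀ p ∈ 𝒲, p.1 = true → ∀ s, Lg p.2 A s
      · obtain ⟨x, -, x1, x2⟩ := pt hW true A h1 []
        exact ⟨(true, x), x2, fun n => x1 n (Nat.zero_le _)⟩
      · push Not at h1
        obtain ⟨p, p1, p2, s, p3⟩ := h1
        obtain ⟨x, -, x1, x2⟩ := pt hW false (co A) (fun q q1 q2 s' =>
          (hI p p1 q q1 (by simp [p2, q2]) s s' A).resolve_left p3) []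
        exact ⟨(false, x), x2, fun n hn => by simpa [co] using x1 n (Nat.zero_le _) hn⟩
    have := (hW.mono (sep_subset 𝒲 fun q => q.1 ≠ i)).to_subtype
    have := ((hP.insert x).mono (sep_subset _ fun z => {j | z.2 ∈ U j}.Infinite)).to_subtype
    obtain ⟨B, hB⟩ := spl2 (ι := ({q ∈ 𝒲 | q.1 ≠ i} × ℕ × List Bool × List Bool) ⊕
        ({z ∈ insert x P | {j | z.2 ∈ U j}.Infinite} × ℕ))
      (Sum.elim (fun r J => ∀ A, Lg (Wd U J r.2.1) A r.2.2.1 ∨ Lg r.1.1.2 (co A) r.2.2.2)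
        fun r J => ∃ j ∈ {j | r.1.1.2 ∈ U j} ∩ J, r.2 ≤ j)
      (by
        rintro (r | r) A B h h1
        · exact fun D => (h1 D).imp_left fun h2 => h2.mono fun t ⟨j, j1, j2⟩ => ⟨j, h j1, j2⟩
        · exact h1.imp fun j hj => ⟨⟨hj.1.1, h hj.1.2⟩, hj.2⟩)
      (by
        rintro (⟨q, l, s, s'⟩ | r) k
        · obtain ⟨m, hm⟩ := isCompact_univ.elim_directed_cover
            (fun m => {A | Lg (Wd U (Ico k m) l) A s} ∪ co ⁻¹' {A | Lg q.1.2 A s'})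
            (fun m => (Lg.open _ _).union ((Lg.open _ _).preimage (by unfold co; fun_prop)))
            (fun A _ => by
              rcases h (max k l) s q q.2.1 q.2.2 s' A with ⟨t, ⟨j, -, j1, j2⟩, t1⟩ | h
              · exact mem_iUnion.2 ⟨j + 1, Or.inl ⟨t, ⟨j, ⟨by omega, by omega⟩, by omega, j2⟩, t1⟩⟩
              · exact mem_iUnion.2 ⟨0, Or.inr h⟩)
            (directed_of_isDirected_le fun a b hab => union_subset_union_left _ fun A hA =>
              Lg.mono hA fun t ⟨j, j1, j2⟩ => ⟨j, Ico_subset_Ico_right hab j1, j2⟩)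
          exact ⟨m, fun A => hm trivial⟩
        · exact inf_ico r.1.2.2 _ _)
    have h1 : ∀ p ∈ range (fun k : Bool × ℕ => (i, Wd U (bif k.1 then B else Bᶜ) k.2)), ∀ q ∈ 𝒲,
        p.1 ≠ q.1 → ∀ s s' A, Lg p.2 A s ∨ Lg q.2 (co A) s' := by
      rintro _ ⟨⟨_ | _, k⟩, rfl⟩ q q1 q2 s s'
      exacts [(hB (.inl (⟨q, q1, q2.symm⟩, k, s, s'))).2, (hB (.inl (⟨q, q1, q2.symm⟩, k, s, s'))).1]
    refine ⟨(x, B, ⟨_, countable_range fun k : Bool × ℕ =>
      (i, Wd U (bif k.1 then B else Bᶜ) k.2)⟩), fun _ => ⟨?_, x1, Or.inr ⟨x2, fun z hz h2 => ?_⟩⟩⟩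
    · rintro p (p1 | p1) q (q1 | q1) h2 s s' A
      · exact hI p p1 q q1 h2 s s' A
      · simpa only [coco] using (h1 q q1 p p1 h2.symm s' s (co A)).symm
      · exact h1 p p1 q q1 h2 s s' A
      · obtain ⟨k, rfl⟩ := p1
        obtain ⟨l, rfl⟩ := q1
        exact (h2 rfl).elim
    · exact hz.elim (fun h => ⟨inf_of fun k => (hB (.inr (⟨_, h, h2⟩, k))).1,
        inf_of fun k => (hB (.inr (⟨_, h, h2⟩, k))).2⟩) fun h =>
          ⟨wd1 fun k => h _ ⟨(true, k), rfl⟩ rfl, wd1 fun k => h _ ⟨(false, k), rfl⟩ rfl⟩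
  · push Not at h
    obtain ⟨k, s, q, q1, q2, s', D, h1, h2⟩ := h
    obtain ⟨x, x1, x2, x3⟩ := pt hW i D (fun p p1 p2 s =>
      (hI p p1 q q1 (p2 ▸ q2.symm) s s' D).resolve_right h2) s
    refine ⟨((i, x), ∅, ⟨∅, countable_empty⟩), fun _ => ⟨by simpa using hI, x3, Or.inl ⟨rfl,
      wd2 hU (k := k) (l := s.length) fun n hn h' => h1 ⟨_, h', ?_⟩⟩⟩⟩
    have := ex3 (ρ := fun s b => b = true → D s.length = true) (x := x) hn fun n a _ c => by
      simpa using x2 n a c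
    rwa [x1] at this

def W0 : Set (Bool × Set (List Bool)) :=
  range fun k : Bool × ℕ => (k.1, Nd {x | ∃ n ≥ k.2, x n = true})

theorem inv0 : Inv W0 := by
  have h : ∀ (k n : ℕ) (s : List Bool) (A : C), k ≤ n → s.length ≤ n → A n = true →
      Lg (Nd {x | ∃ n ≥ k, x n = true}) A s := fun k n s A h1 h2 h3 => by
    obtain ⟨x, hx⟩ := ex1 s
    let y : C := fun i => if i < s.length then x i else decide (i = n)
    have y1 : res y s.length = s := (res_eq_res.2 fun i hi => if_pos hi).trans hx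
    refine ⟨res y (n + 1), fun z hz => ⟨n, h1, ?_⟩, ?_⟩
    · rw [res_length] at hz
      rw [res_eq_res.1 hz (Nat.lt_succ_self n)]
      simp [y, h2]
    · have := ex3 (ρ := fun s b => b = true → A s.length = true) (x := y)
        (h2.trans n.le_succ) fun m a _ c => by
          simp only [y, if_neg (not_lt.2 a), decide_eq_true_eq] at c
          simpa [c] using h3
      rwa [y1] at this
  rintro _ ⟨k, rfl⟩ _ ⟨l, rfl⟩ - s s' A
  cases h1 : A (k.2 + l.2 + s.length + s'.length)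
  · exact Or.inr (h _ (k.2 + l.2 + s.length + s'.length) _ _ (by omega) (by omega)
      (by simpa [co] using h1))
  · exact Or.inl (h _ _ _ _ (by omega) (by omega) h1)

theorem main (ch : continuum = (aleph 1 : Cardinal.{0})) : ∃ X : Set (Bool × C),
    (∀ i n, (i, fun m => decide (m ≠ n)) ∈ X) ∧ (∀ x ∈ X, {n | x.2 n = true}.Infinite) ∧
    (∀ A : C, ∃ x ∈ X, ∀ n, x.2 n = true → A n = x.1) ∧
    ∀ i (U : ℕ → Set C), (∀ j, IsOpen (U j)) → (∀ y, (i, y) ∈ X → {j | y ∈ U j}.Infinite) →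
      ∃ A, ∀ y, (i, y) ∈ X → Sp A {j | y ∈ U j} := by
  obtain ⟨e, he⟩ : ∃ e : I → (ℕ → {U : Set C | IsOpen U}) × Bool × C, Function.Surjective e := by
    have : Nonempty {U : Set C | IsOpen U} := ⟨⟨∅, (isOpen_empty : IsOpen (∅ : Set C))⟩⟩
    obtain ⟨j⟩ : #((ℕ → {U : Set C | IsOpen U}) × Bool × C) ≤ #I := by
      rw [mkI, ← ch, mk_prod, lift_id, lift_id]
      exact (mul_le_mul' (copen _) le_rfl).trans (by simp)
    exact ⟨_, Function.invFun_surjective j.injective⟩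
  let D := (Bool × C) × Set ℕ × {𝒱 : Set (Bool × Set (List Bool)) // 𝒱.Countable}
  let P0 : Set (Bool × C) := range fun k : Bool × ℕ => (k.1, fun m => decide (m ≠ k.2))
  choose F hF using fun (α : I) (r : Iio α → D) =>
    haveI := (cIio α).to_subtype
    stage (P := P0 ∪ range fun β => (r β).1) ((countable_range _).union (countable_range _))
      (𝒲 := W0 ∪ ⋃ β, (r β).2.2.1) ((countable_range _).union
        (countable_iUnion fun β => (r β).2.2.2)) (e α).2.1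
      (fun j => (e α).1 j) (fun j => ((e α).1 j).2) (e α).2.2
  obtain ⟨c, hc⟩ : ∃ c : I → D, ∀ α, c α = F α fun β => c β :=
    ⟨wellFounded_lt.fix fun α r => F α fun β => r β β.2, fun α => wellFounded_lt.fix_eq _ α⟩
  have k1 : ∀ α : I, Inv (W0 ∪ ⋃ β : Iio α, (c β.1).2.2.1) := by
    intro α
    induction α using WellFoundedLT.induction with
    | ind α ih =>
      have h1 : ∀ β < α, ∀ p ∈ (c β).2.2.1, ∀ q, (q ∈ W0 ∨ ∃ γ ≤ β, q ∈ (c γ).2.2.1) →
          p ∈ (W0 ∪ ⋃ γ : Iio β, (c γ).2.2.1) ∪ (c β).2.2.1 ∧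
          q ∈ (W0 ∪ ⋃ γ : Iio β, (c γ).2.2.1) ∪ (c β).2.2.1 := by
        rintro β - p hp q (hq | ⟨γ, h, hq⟩)
        · exact ⟨Or.inr hp, Or.inl (Or.inl hq)⟩
        · rcases h.lt_or_eq with h | rfl
          · exact ⟨Or.inr hp, Or.inl (Or.inr (mem_iUnion.2 ⟨⟨γ, h⟩, hq⟩))⟩
          · exact ⟨Or.inr hp, Or.inr hq⟩
      have h2 : ∀ β < α, Inv ((W0 ∪ ⋃ γ : Iio β, (c γ).2.2.1) ∪ (c β).2.2.1) := fun β h => by
        rw [hc β]
        exact (hF β _ (ih β h)).1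
      rintro p (hp | hp) q (hq | hq)
      · exact inv0 p hp q hq
      · obtain ⟨β, hq⟩ := mem_iUnion.1 hq
        have := h1 β β.2 q hq p (Or.inl hp)
        exact h2 β β.2 p this.2 q this.1
      · obtain ⟨β, hp⟩ := mem_iUnion.1 hp
        have := h1 β β.2 p hp q (Or.inl hq)
        exact h2 β β.2 p this.1 q this.2
      · obtain ⟨β, hp⟩ := mem_iUnion.1 hp
        obtain ⟨γ, hq⟩ := mem_iUnion.1 hq
        rcases le_total β.1 γ.1 with h | h
        · have := h1 γ γ.2 q hq p (Or.inr ⟨β, h, hp⟩)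
          exact h2 γ γ.2 p this.2 q this.1
        · have := h1 β β.2 p hp q (Or.inr ⟨γ, h, hq⟩)
          exact h2 β β.2 p this.1 q this.2
  have k2 := fun α => (hF α _ (k1 α)).2
  simp only [← hc] at k2
  refine ⟨P0 ∪ range fun α => (c α).1, fun i n => Or.inl ⟨(i, n), rfl⟩, ?_, fun A => ?_,
    fun i U hU h => ?_⟩
  · rintro _ (⟨k, rfl⟩ | ⟨α, rfl⟩)
    · exact inf_of fun l => ⟨k.2 + l + 1, by simp; omega, by omega⟩
    · refine inf_of fun k => ?_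
      obtain ⟨n, hn⟩ := (k2 α).1 _ (Or.inl ⟨((c α).1.1, k), rfl⟩) rfl
      obtain ⟨m, m1, m2⟩ := nd2 hn
      exact ⟨m, m2, m1⟩
  · obtain ⟨α, hα⟩ := he (fun _ => ⟨Set.univ, (isOpen_univ : IsOpen (Set.univ : Set C))⟩, true, A)
    have := (k2 α).2
    rw [hα] at this
    exact ⟨_, Or.inr ⟨α, rfl⟩, (this.resolve_left fun h => infinite_univ
      (h.2.subset fun _ _ => trivial)).1⟩
  · obtain ⟨α, hα⟩ := he (fun j => ⟨U j, hU j⟩, i, fun _ => true)
    have := (k2 α).2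
    rw [hα] at this
    refine ⟨(c α).2.1, fun y hy => (this.resolve_left fun h' => h (c α).1.2
      (Or.inr ⟨α, Prod.ext h'.1 rfl⟩) h'.2).2 y ?_ (h y hy)⟩
    rcases hy with hy | ⟨β, hy⟩
    · exact Or.inl (Or.inr (Or.inl hy))
    rcases lt_trichotomy β α with h1 | rfl | h1
    · exact Or.inl (Or.inr (Or.inr ⟨⟨β, h1⟩, hy⟩))
    · exact Or.inl (Or.inl hy.symm)
    · refine Or.inr fun p p1 p2 => ?_
      have := (k2 β).1 p (Or.inr (mem_iUnion.2 ⟨⟨α, h1⟩, p1⟩))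
      simp only at hy
      rw [hy] at this
      exact this p2

theorem key (ch : continuum = (aleph 1 : Cardinal.{0})) : ∃ X Y : Set ℝ,
    Split (La (Op X)) (La (Op X)) ∧ Split (La (Op Y)) (La (Op Y)) ∧
      ¬ Split (La (Op ↥(X ∪ Y))) (La (Op ↥(X ∪ Y))) := by
  classical
  obtain ⟨X, h1, h2, h3, h4⟩ := main ch
  obtain ⟨e, -, e1, e2⟩ := (isClosed_univ (X := ℝ)).exists_nat_bool_injection_of_not_countable
    Cardinal.not_countable_real
  have e3 : ∀ n, ∃ W, IsOpen W ∧ e ⁻¹' W = {x | x n = true} := fun n =>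
    (e1.isClosedEmbedding e2).isInducing.isOpen_iff.1
      ((isOpen_discrete {true}).preimage (continuous_apply (A := fun _ : ℕ => Bool) n))
  choose W w1 w2 using e3
  have w3 : ∀ x n, e x ∈ W n ↔ x n = true := fun x n => Set.ext_iff.1 (w2 n) x
  have h5 : ∀ i, Split (La (Op (e '' {y | (i, y) ∈ X}))) (La (Op (e '' {y | (i, y) ∈ X}))) :=
    fun i => by
      have : Nonempty (e '' {y | (i, y) ∈ X}) := ⟨⟨_, _, h1 i 0, rfl⟩⟩
      refine split_of fun u u1 u2 => ?_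
      choose U v1 v2 using fun n => isOpen_induced_iff.1 (u1 n)
      obtain ⟨A, hA⟩ := h4 i (fun j => e ⁻¹' U j) (fun j => (v1 j).preimage e1) fun y hy => by
        simpa [← v2] using u2 ⟨_, y, hy, rfl⟩
      refine ⟨A, ?_⟩
      rintro ⟨_, y, hy, rfl⟩
      simpa [← v2] using hA y hy
  refine ⟨_, _, h5 false, h5 true, nsplit (fun n => Subtype.val ⁻¹' W n)
    (fun n => (w1 n).preimage continuous_subtype_val) ?_
    (fun n => ⟨⟨_, Or.inl ⟨_, h1 false n, rfl⟩⟩, fun m => by simp [w3]⟩) fun A => ?_⟩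
  · rintro ⟨_, ⟨y, hy, rfl⟩ | ⟨y, hy, rfl⟩⟩ <;> simpa [w3] using h2 _ hy
  · obtain ⟨⟨_ | _, x⟩, x1, x2⟩ := h3 fun n => decide (n ∈ A)
    · refine ⟨⟨_, Or.inl ⟨x, x1, rfl⟩⟩, fun h => ?_⟩
      obtain ⟨n, n1, n2⟩ := h.1.nonempty
      simpa [n2] using x2 n ((w3 _ _).1 n1)
    · refine ⟨⟨_, Or.inr ⟨x, x1, rfl⟩⟩, fun h => ?_⟩
      obtain ⟨n, n1, n2⟩ := h.2.nonempty
      exact n2 (by simpa using x2 n ((w3 _ _).1 n1))

end Pool.Agent.H.MP_293d80_gt
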